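import Mathlib

set_option autoImplicit false

namespace Pool.Agent.Results.MP_948f5d_co.Prime

open SimpleGraph

variable {B : Type}

/-- a braid move `sts → tst` (`m(s,t) = 3`) on the letters at positions `i, i+1, i+2` (from 0) -/
def Move (M : CoxeterMatrix B) (i : ℕ) (β γ : List B) : Prop :=
  ∃ (p q : List B) (s t : B), p.length = i ∧ M s t = 3 ∧
    β = p ++ [s, t, s] ++ q ∧ γ = p ++ [t, s, t] ++ q

/-- the braid class of `α` -/
def Cls (M : CoxeterMatrix B) (α : List B) : Set (List B) :=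
  {β | Relation.ReflTransGen (fun x y => ∃ i, Move M i x y) α β}

/-- starting positions of the braid shadows of the members of the class -/
def Shadows (M : CoxeterMatrix B) (α : List B) : Set ℕ :=
  {i | ∃ β ∈ Cls M α, ∃ γ, Move M i β γ}

def IsLink (M : CoxeterMatrix B) (α : List B) : Prop :=
  α.length = 1 ∨ (Odd α.length ∧ Shadows M α = {i | Even i ∧ i + 2 < α.length})

theorem Move.symm {M : CoxeterMatrix B} {i : ℕ} {β γ : List B} (h : Move M i β γ) :
    Move M i γ β := by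
  obtain ⟨p, q, s, t, h1, h2, h3, h4⟩ := h
  exact ⟨p, q, t, s, h1, by rw [M.symmetric, h2], h4, h3⟩

theorem Move.spec {M : CoxeterMatrix B} {i : ℕ} {β γ : List B} (h : Move M i β γ) :
    ∃ s t : B, s ≠ t ∧ β[i]? = some s ∧ β[i + 1]? = some t ∧ β[i + 2]? = some s ∧
      γ[i]? = some t ∧ γ[i + 1]? = some s ∧ γ[i + 2]? = some t ∧
      ∀ k, k < i ∨ i + 2 < k → β[k]? = γ[k]? := by
  obtain ⟨p, q, s, t, rfl, h2, rfl, rfl⟩ := h
  refine ⟨s, t, fun e => by rw [e, M.diagonal] at h2; omega, by simp, by simp, by simp, by simp,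
    by simp, by simp, fun k hk => ?_⟩
  rcases hk with hk | hk
  · simp [List.getElem?_append_left hk]
  · obtain ⟨l, rfl⟩ : ∃ l, k = p.length + (l + 3) := ⟨k - p.length - 3, by omega⟩
    simp [List.getElem?_append_right]

theorem Move.ne {M : CoxeterMatrix B} {i : ℕ} {β γ : List B} (h : Move M i β γ) (k : ℕ) :
    β[k]? ≠ γ[k]? ↔ i ≤ k ∧ k ≤ i + 2 := by
  obtain ⟨s, t, st, a0, a1, a2, b0, b1, b2, o⟩ := h.spec
  refine ⟨fun c => by by_contra d; exact c (o k (by omega)), fun c => ?_⟩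
  obtain rfl | rfl | rfl : k = i ∨ k = i + 1 ∨ k = i + 2 := by omega
  all_goals simp [*, st.symm]

theorem Move.det {M : CoxeterMatrix B} {i : ℕ} {β γ δ : List B} (h : Move M i β γ)
    (h' : Move M i β δ) : γ = δ := by
  obtain ⟨s, t, -, a0, a1, a2, b0, b1, b2, o⟩ := h.spec
  obtain ⟨s', t', -, c0, c1, c2, d0, d1, d2, o'⟩ := h'.spec
  obtain rfl : s = s' := by simpa [a0] using c0
  obtain rfl : t = t' := by simpa [a1] using c1
  refine List.ext_getElem? fun k => ?_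
  obtain h | rfl | rfl | rfl : (k < i ∨ i + 2 < k) ∨ k = i ∨ k = i + 1 ∨ k = i + 2 := by omega
  · rw [← o k h, o' k h]
  all_goals simp [*]

/-- the braid graph -/
def graph (M : CoxeterMatrix B) (α : List B) : SimpleGraph (Cls M α) where
  Adj x y := ∃ i, Move M i x.1 y.1
  symm := ⟨fun _ _ ⟨i, h⟩ => ⟨i, h.symm⟩⟩
  loopless := ⟨fun _ ⟨i, h⟩ => ((h.ne i).2 ⟨le_rfl, by omega⟩) rfl⟩

theorem square {M : CoxeterMatrix B} {i j i' j' : ℕ} {β β₁ β₂ γ : List B}
    (hi : Move M i β β₁) (hj : Move M j β β₂) (hj' : Move M j' β₁ γ) (hi' : Move M i' β₂ γ)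
    (n1 : β₁ ≠ β₂) (n2 : γ ≠ β) (ei : Even i) (ej : Even j) (hij : i ≤ j) :
    i + 2 < j ∧ i' = i ∧ j' = j := by
  have ne : i ≠ j := fun e => n1 (hi.det (e ▸ hj))
  have m1 : j' ≠ i := fun e => n2 (hj'.det (e ▸ hi.symm))
  have m2 : i' ≠ j := fun e => n2 (hi'.det (e ▸ hj.symm))
  have D : ∀ k, ((i ≤ k ∧ k ≤ i + 2) ↔ ¬ (j ≤ k ∧ k ≤ j + 2)) →
      (j' ≤ k ∧ k ≤ j' + 2) ∨ (i' ≤ k ∧ k ≤ i' + 2) := fun k hk => by
    rw [← hi.ne, ← hj.ne] at hk
    rw [← hj'.ne, ← hi'.ne]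
    by_contra c
    simp only [not_or, not_not] at c hk
    rw [c.1, ← c.2] at hk
    tauto
  have D' : ∀ k, ((j' ≤ k ∧ k ≤ j' + 2) ↔ ¬ (i' ≤ k ∧ k ≤ i' + 2)) →
      (i ≤ k ∧ k ≤ i + 2) ∨ (j ≤ k ∧ k ≤ j + 2) := fun k hk => by
    rw [← hj'.ne, ← hi'.ne] at hk
    rw [← hi.ne, ← hj.ne]
    by_contra c
    simp only [not_or, not_not] at c hk
    rw [← c.1, ← c.2] at hk
    tauto
  obtain ⟨a, rfl⟩ := ei
  obtain ⟨b, rfl⟩ := ej
  have h1 := D (a + a) (by omega)
  have h2 := D (a + a + 1) (by omega)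
  have h3 := D (b + b + 2) (by omega)
  have h4 := D (b + b + 1) (by omega)
  have h5 := D' i'
  have h6 := D' j'
  have h7 := D' (i' + 2)
  have h8 := D' (j' + 2)
  by_cases e : b = a + 1
  · exfalso
    subst e
    obtain rfl : j' = a + a + 2 := by omega
    obtain ⟨s, t, st, a0, a1, a2, b0, b1, b2, o⟩ := hi.spec
    obtain ⟨s', t', -, c0, -, c2, -⟩ := hj.spec
    obtain ⟨x, y, -, d0, -, d2, -⟩ := hj'.spec
    have e1 := o (a + a + 2 + 2) (by omega)
    rw [show a + 1 + (a + 1) = a + a + 2 by ring] at c0 c2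
    rw [c2, d2] at e1
    rw [a2] at c0
    rw [b2] at d0
    simp only [Option.some.injEq] at e1 c0 d0
    exact st (by rw [c0, e1, d0])
  · have h9 := D (a + a + 2) (by omega)
    have h10 := D (b + b) (by omega)
    omega

theorem square' {M : CoxeterMatrix B} {i j i' j' : ℕ} {β β₁ β₂ γ : List B}
    (hi : Move M i β β₁) (hj : Move M j β β₂) (hj' : Move M j' β₁ γ) (hi' : Move M i' β₂ γ)
    (n1 : β₁ ≠ β₂) (n2 : γ ≠ β) (ei : Even i) (ej : Even j) :
    (i + 2 < j ∨ j + 2 < i) ∧ i' = i := by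
  rcases le_total i j with h | h
  · have := square hi hj hj' hi' n1 n2 ei ej h; exact ⟨Or.inl this.1, this.2.1⟩
  · have := square hj hi hi' hj' n1.symm n2 ej ei h; exact ⟨Or.inr this.1, this.2.2⟩

theorem conn (M : CoxeterMatrix B) (α : List B) : (graph M α).Connected := by
  have h : ∀ β (hβ : β ∈ Cls M α), (graph M α).Reachable ⟨α, .refl⟩ ⟨β, hβ⟩ := fun β hβ => by
    induction hβ with
    | refl => rfl
    | tail h1 h2 ih => exact ih.trans (Adj.reachable h2)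
  haveI : Nonempty (Cls M α) := ⟨⟨α, .refl⟩⟩
  exact ⟨fun x y => (h x.1 x.2).symm.trans (h y.1 y.2)⟩

section
variable {M : CoxeterMatrix B} {α : List B} {V₁ V₂ : Type} {G : SimpleGraph V₁} {H : SimpleGraph V₂}

theorem sq (f : G.boxProd H ≃g graph M α) (hev : ∀ i ∈ Shadows M α, Even i) {g g' : V₁} {h h' : V₂}
    (hg : G.Adj g g') (hh : H.Adj h h') {i j : ℕ} (hi : Move M i (f (g, h)).1 (f (g', h)).1)
    (hj : Move M j (f (g, h)).1 (f (g, h')).1) :
    (i + 2 < j ∨ j + 2 < i) ∧ Move M i (f (g, h')).1 (f (g', h')).1 := by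
  obtain ⟨j', hj'⟩ : (graph M α).Adj (f (g', h)) (f (g', h')) := f.map_adj_iff.2 (by simp [hh])
  obtain ⟨i', hi'⟩ : (graph M α).Adj (f (g, h')) (f (g', h')) := f.map_adj_iff.2 (by simp [hg])
  have := square' hi hj hj' hi'
    (fun e => hg.ne (congrArg Prod.fst (f.injective (Subtype.ext e))).symm)
    (fun e => hg.ne (congrArg Prod.fst (f.injective (Subtype.ext e))).symm)
    (hev i ⟨_, (f (g, h)).2, _, hi⟩) (hev j ⟨_, (f (g, h)).2, _, hj⟩)
  exact ⟨this.1, this.2 ▸ hi'⟩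

theorem slide (f : G.boxProd H ≃g graph M α) (hev : ∀ i ∈ Shadows M α, Even i) {g g' : V₁}
    (hg : G.Adj g g') {i : ℕ} {h h' : V₂} (w : H.Walk h h')
    (hi : Move M i (f (g, h)).1 (f (g', h)).1) : Move M i (f (g, h')).1 (f (g', h')).1 := by
  induction w with
  | nil => exact hi
  | @cons a b c hab _ ih =>
    obtain ⟨j, hj⟩ : (graph M α).Adj (f (g, a)) (f (g, b)) := f.map_adj_iff.2 (by simp [hab])
    exact ih (sq f hev hg hab hi hj).2

/-- labels used by the edges of the first factor -/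
def Lab (f : G.boxProd H ≃g graph M α) (i : ℕ) : Prop :=
  ∃ g g' h, G.Adj g g' ∧ Move M i (f (g, h)).1 (f (g', h)).1

theorem far (f : G.boxProd H ≃g graph M α) (hev : ∀ i ∈ Shadows M α, Even i) (cG : G.Connected)
    (cH : H.Connected) {i j : ℕ} (hi : Lab f i) (hj : Lab ((boxProdComm H G).trans f) j) :
    i + 2 < j ∨ j + 2 < i := by
  obtain ⟨g, g', h₀, hg, hi⟩ := hi
  obtain ⟨h, h', g₀, hh, hj⟩ := hj
  obtain ⟨w⟩ := cH h₀ h
  obtain ⟨w'⟩ := cG g₀ g
  exact (sq f hev hg hh (slide f hev hg w hi)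
    (slide ((boxProdComm H G).trans f) hev hh w' hj)).1

theorem lab_ex [Nontrivial V₁] (f : G.boxProd H ≃g graph M α) (cG : G.Connected) (cH : H.Connected) :
    ∃ i ∈ Shadows M α, Lab f i := by
  obtain ⟨h⟩ := cH.nonempty
  obtain ⟨g⟩ := cG.nonempty
  obtain ⟨g', hg⟩ := cG.preconnected.exists_adj_of_nontrivial g
  obtain ⟨i, hi⟩ : (graph M α).Adj (f (g, h)) (f (g', h)) := f.map_adj_iff.2 (by simp [hg])
  exact ⟨i, ⟨_, (f (g, h)).2, _, hi⟩, g, g', h, hg, hi⟩

theorem lab_or (f : G.boxProd H ≃g graph M α) {i : ℕ} (hi : i ∈ Shadows M α) :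
    Lab f i ∨ Lab ((boxProdComm H G).trans f) i := by
  obtain ⟨β, hβ, γ, hm⟩ := hi
  have hγ : γ ∈ Cls M α := hβ.tail ⟨i, hm⟩
  obtain ⟨⟨g, h⟩, e⟩ := f.surjective ⟨β, hβ⟩
  obtain ⟨⟨g', h'⟩, e'⟩ := f.surjective ⟨γ, hγ⟩
  have hm' : Move M i (f (g, h)).1 (f (g', h')).1 := by
    change f (g, h) = _ at e; change f (g', h') = _ at e'
    rw [e, e']; exact hm
  rcases boxProd_adj.1 (f.map_adj_iff.1 ⟨i, hm'⟩) with ⟨a, b⟩ | ⟨a, b⟩
  · obtain rfl : h = h' := b
    exact Or.inl ⟨g, g', h, a, hm'⟩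
  · obtain rfl : g = g' := b
    exact Or.inr ⟨h, h', g, a, hm'⟩
end

theorem len {M : CoxeterMatrix B} {α β : List B} (h : β ∈ Cls M α) : β.length = α.length := by
  induction h with
  | refl => rfl
  | tail _ h2 ih =>
    obtain ⟨i, p, q, s, t, -, -, rfl, rfl⟩ := h2
    simpa using ih

theorem result (B W : Type) [Group W] (M : CoxeterMatrix B) (cs : CoxeterSystem M W)
    (_laced : ∀ s t : B, s ≠ t → M s t = 2 ∨ M s t = 3)
    (α : List B) (_red : cs.IsReduced α) (link : IsLink M α)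
    (V₁ V₂ : Type) [Nontrivial V₁] [Nontrivial V₂] (G : SimpleGraph V₁) (H : SimpleGraph V₂) :
    IsEmpty (graph M α ≃g G.boxProd H) := ⟨fun f₀ => by
  have f := f₀.symm
  have c : (G.boxProd H).Connected := f.connected_iff.2 (conn M α)
  have cG := c.ofBoxProdLeft
  have cH := c.ofBoxProdRight
  obtain ⟨i, si, hi⟩ := lab_ex f cG cH
  obtain ⟨j, sj, hj⟩ := lab_ex ((boxProdComm H G).trans f) cH cG
  rcases link with l1 | ⟨-, hS⟩
  · obtain ⟨β, hβ, γ, p, q, s, t, -, -, e, -⟩ := si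
    have := len hβ
    rw [e, l1] at this
    simp at this; omega
  · have hev : ∀ i ∈ Shadows M α, Even i := fun i h => by rw [hS] at h; exact h.1
    have F := @far _ _ _ _ _ _ _ f hev cG cH
    have step : ∀ a, 2 * a + 2 < α.length →
        (Lab f (2 * a) ↔ Lab f 0) := fun a => by
      induction a with
      | zero => simp
      | succ a ih =>
        intro ha
        rw [← ih (by omega)]
        have o1 := lab_or f (i := 2 * a) (by rw [hS]; exact ⟨by simp, by omega⟩)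
        have o2 := lab_or f (i := 2 * (a + 1)) (by rw [hS]; exact ⟨by simp, by omega⟩)
        exact ⟨fun x => o1.elim id fun y => by have := F x y; omega,
          fun x => o2.elim id fun y => by have := F x y; omega⟩
    rw [hS] at si sj
    obtain ⟨⟨a, rfl⟩, ha⟩ := si
    obtain ⟨⟨b, rfl⟩, hb⟩ := sj
    rw [← two_mul] at hi hj ha hb
    have := F ((step b hb).2 ((step a ha).1 hi)) hj
    omega⟩

end Pool.Agent.Results.MP_948f5d_co.Prime
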